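import Pool.Agent.Helper31.Del.Goals

/-! Packet B2: near-identity local symmetries commute up to a local translation. -/

namespace Pool.Agent.Helper23.Del

open Module Pool.Agent.Helper31.Del

variable {V : Type*} [NormedAddCommGroup V] [InnerProductSpace ℝ V]

theorem lin_mul (a b : V ≃ᵃⁱ[ℝ] V) :
    (a * b).linearIsometryEquiv = a.linearIsometryEquiv * b.linearIsometryEquiv := by
  ext v; rfl

theorem lin_inv (a : V ≃ᵃⁱ[ℝ] V) :
    (a⁻¹).linearIsometryEquiv = (a.linearIsometryEquiv)⁻¹ := by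
  ext v; rfl

theorem app_eq (a : V ≃ᵃⁱ[ℝ] V) (v : V) : a v = a.linearIsometryEquiv v + a 0 := by
  have h := a.map_vadd (0 : V) v
  simpa using h

theorem mul_app (a b : V ≃ᵃⁱ[ℝ] V) (v : V) : (a * b) v = a (b v) := rfl

theorem good_mono {Y : Set V} {ρ ρ' : ℝ} {a : V ≃ᵃⁱ[ℝ] V} (h : Good Y ρ a) (hρ : ρ' ≤ ρ) :
    Good Y ρ' a := fun p hp hpr => h p hp (hpr.trans hρ)

theorem anr_mono {a : V ≃ᵃⁱ[ℝ] V} {δ δ' : ℝ} (h : ANr a δ) (hδ : δ ≤ δ') : ANr a δ' :=
  ⟨h.1.trans hδ, fun v => (h.2 v).trans (mul_le_mul_of_nonneg_right hδ (norm_nonneg v))⟩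

/-- the sequence of iterated commutators -/
noncomputable def sq (g h : V ≃ᵃⁱ[ℝ] V) : ℕ → V ≃ᵃⁱ[ℝ] V
  | 0 => g
  | 1 => h
  | (n + 2) => sq g h (n + 1) * sq g h n * (sq g h (n + 1))⁻¹ * (sq g h n)⁻¹

theorem lin_sq (g h : V ≃ᵃⁱ[ℝ] V) (n : ℕ) : (sq g h (n + 2)).linearIsometryEquiv =
    (sq g h (n + 1)).linearIsometryEquiv * (sq g h n).linearIsometryEquiv *
      ((sq g h (n + 1)).linearIsometryEquiv)⁻¹ * ((sq g h n).linearIsometryEquiv)⁻¹ := by
  rw [sq, lin_mul, lin_mul, lin_mul, lin_inv, lin_inv]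

theorem almostComm (hS : CommStep V) (hF : Frob V) : AlmostComm V := by
  intro Y m r ρ β g h hm hsep h0 hspan hβ hrρ hρ hg hh hGg hGh
  have hβ0 : 0 ≤ β := (norm_nonneg _).trans hg.1
  -- invariants
  have hinv : ∀ n : ℕ, (ANr (sq g h n) (β / 2 ^ (n - 1)) ∧
      Good Y (ρ - 24 * β + 24 * (β / 2 ^ (n - 1))) (sq g h n)) ∧
      (ANr (sq g h (n + 1)) (β / 2 ^ n) ∧
      Good Y (ρ - 24 * β + 24 * (β / 2 ^ n)) (sq g h (n + 1))) := by
    intro n
    induction n with
    | zero =>
      have e1 : β / 2 ^ (0 - 1) = β := by norm_num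
      rw [e1]
      have e3 : ρ - 24 * β + 24 * β = ρ := by ring
      rw [e3]
      exact ⟨⟨hg, hGg⟩, ⟨hh, hGh⟩⟩
    | succ n ih =>
      obtain ⟨⟨ha, hGa⟩, ⟨hb, hGb⟩⟩ := ih
      have e1 : n + 1 - 1 = n := rfl
      rw [e1]
      refine ⟨⟨hb, hGb⟩, ?_⟩
      set x : ℝ := β / 2 ^ (n - 1) with hx
      set y : ℝ := β / 2 ^ n with hy
      have hy0 : 0 ≤ y := by positivity
      have hx0 : 0 ≤ x := by positivity
      have hxβ : x ≤ β := div_le_self hβ0 (one_le_pow₀ (by norm_num))
      have hyx : y ≤ x := by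
        rw [hx, hy]
        exact div_le_div_of_nonneg_left hβ0 (by positivity)
          (pow_le_pow_right₀ (by norm_num) (Nat.sub_le _ _))
      have hx2 : x ≤ 2 * y := by
        rw [hx, hy]
        rcases n with _ | n
        · norm_num; linarith
        · rw [Nat.add_sub_cancel, pow_succ]
          apply le_of_eq
          field_simp
      have hy2 : β / 2 ^ (n + 1) = y / 2 := by rw [hy, pow_succ]; field_simp
      have hstep := hS Y (sq g h (n + 1)) (sq g h n) y x x
        (ρ - 24 * β + 24 * y) hb ha hyx le_rfl (by linarith) (by nlinarith) hGb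
        (good_mono hGa (by linarith))
      refine ⟨?_, ?_⟩
      · rw [hy2]
        refine anr_mono hstep.1 ?_
        nlinarith
      · rw [hy2]
        refine good_mono hstep.2 ?_
        linarith
  -- some commutator is the identity
  have hone : ∃ n, (sq g h n).linearIsometryEquiv = 1 := by
    obtain ⟨n, hn⟩ : ∃ n : ℕ, β / 2 ^ n < m / 2 := by
      obtain ⟨n, hn⟩ := exists_pow_lt_of_lt_one (show (0 : ℝ) < m / 2 / (β + 1) by positivity)
        (show (1 / 2 : ℝ) < 1 by norm_num)
      refine ⟨n, ?_⟩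
      rw [lt_div_iff₀ (by positivity)] at hn
      calc β / 2 ^ n = (1 / 2) ^ n * β := by rw [one_div, inv_pow]; ring
        _ ≤ (1 / 2) ^ n * (β + 1) := by gcongr; linarith
        _ < m / 2 := hn
    refine ⟨n + 1, ?_⟩
    obtain ⟨hb, hGb⟩ := (hinv n).2
    set s := sq g h (n + 1) with hs
    set y : ℝ := β / 2 ^ n with hy
    have hy0 : 0 ≤ y := by positivity
    have hfix : ∀ p ∈ Y, ‖p‖ ≤ r → s p = p := by
      intro p hp hpr
      by_contra hne
      have h1 : s p ∈ Y := (hGb p hp (by linarith)).1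
      have h2 := hsep _ h1 _ hp hne
      have h3 : ‖s p - p‖ ≤ y * ‖p‖ + y := by
        rw [app_eq s p]
        have e : s.linearIsometryEquiv p + s 0 - p = (s.linearIsometryEquiv p - p) + s 0 := by abel
        rw [e]
        exact (norm_add_le _ _).trans (add_le_add (hb.2 p) hb.1)
      have h4 : ‖p‖ ≤ 1 := by linarith
      nlinarith
    have hs0 : s 0 = 0 := by
      by_cases hr : 0 ≤ r
      · exact hfix 0 h0 (by rw [norm_zero]; exact hr)
      · have hempty : {p | p ∈ Y ∧ ‖p‖ ≤ r} = (∅ : Set V) := by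
          ext p
          simp only [Set.mem_ofPred_eq, Set.mem_empty_iff_false, iff_false, not_and, not_le]
          intro _
          exact lt_of_lt_of_le (not_le.mp hr) (norm_nonneg p)
        rw [hempty, Submodule.span_empty] at hspan
        have : (s 0 : V) ∈ (⊥ : Submodule ℝ V) := by rw [hspan]; trivial
        simpa using this
    have hlin : ∀ p : V, p ∈ Submodule.span ℝ {p | p ∈ Y ∧ ‖p‖ ≤ r} →
        s.linearIsometryEquiv p = p := by
      intro p hp
      induction hp using Submodule.span_induction with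
      | mem x hx =>
        have := hfix x hx.1 hx.2
        rw [app_eq, hs0, add_zero] at this
        exact this
      | zero => exact map_zero _
      | add x y _ _ hx hy => rw [map_add, hx, hy]
      | smul a x _ hx => rw [map_smul, hx]
    ext v
    exact hlin v (by rw [hspan]; trivial)
  -- descend
  have hdesc : ∀ n, (sq g h (n + 3)).linearIsometryEquiv = 1 →
      (sq g h (n + 2)).linearIsometryEquiv = 1 := by
    intro n hn
    have h1 := lin_sq g h (n + 1)
    rw [show n + 1 + 2 = n + 3 from rfl, hn, show n + 1 + 1 = n + 2 from rfl] at h1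
    have hcomm : (sq g h (n + 1)).linearIsometryEquiv * (sq g h (n + 2)).linearIsometryEquiv =
        (sq g h (n + 2)).linearIsometryEquiv * (sq g h (n + 1)).linearIsometryEquiv := by
      have h2 : (1 : V ≃ₗᵢ[ℝ] V) * ((sq g h (n + 1)).linearIsometryEquiv *
          (sq g h (n + 2)).linearIsometryEquiv) = (sq g h (n + 2)).linearIsometryEquiv *
          (sq g h (n + 1)).linearIsometryEquiv := by
        rw [h1]; group
      rw [← h2, one_mul]
    rw [lin_sq g h n] at hcomm ⊢
    refine hF _ _ ?_ hcomm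
    intro v
    refine ((hinv n).1.1.2 v).trans ?_
    apply mul_le_mul_of_nonneg_right _ (norm_nonneg v)
    calc β / 2 ^ (n - 1) ≤ β := div_le_self hβ0 (one_le_pow₀ (by norm_num))
      _ ≤ 1 / 4 := by linarith
  have htwo : (sq g h 2).linearIsometryEquiv = 1 := by
    obtain ⟨n, hn⟩ := hone
    induction n with
    | zero => rw [lin_sq g h 0, hn]; group
    | succ n ih =>
      rcases n with _ | n
      · rw [lin_sq g h 0, show (0 + 1 : ℕ) = 1 from rfl] 
        rw [show (0 + 1 : ℕ) = 1 from rfl] at hn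
        rw [hn]; group
      · rcases n with _ | n
        · exact hn
        · exact ih (hdesc n hn)
  have hstep := hS Y h g β β β ρ hh hg le_rfl le_rfl (by linarith) hρ hGh hGg
  have hsq2 : sq g h 2 = h * g * h⁻¹ * g⁻¹ := rfl
  rw [hsq2] at htwo
  set c := h * g * h⁻¹ * g⁻¹ with hc
  have hcv : ∀ v, c v = v + c 0 := by
    intro v
    rw [app_eq c v, htwo]
    rfl
  refine ⟨c 0, ?_, ?_, ?_⟩
  · refine hstep.1.1.trans (le_of_eq (by ring))
  · intro v
    rw [← hcv]
    have : c * (g * h) = h * g := by rw [hc]; group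
    calc h (g v) = (h * g) v := rfl
      _ = (c * (g * h)) v := by rw [this]
      _ = c (g (h v)) := rfl
  · intro p hp hpr
    obtain ⟨h1, h2⟩ := hstep.2 p hp hpr
    rw [hcv] at h1
    refine ⟨h1, ?_⟩
    have : c⁻¹ p = p - c 0 := by
      have h3 : c (p - c 0) = p := by rw [hcv]; abel
      calc c⁻¹ p = c⁻¹ (c (p - c 0)) := by rw [h3]
        _ = (c⁻¹ * c) (p - c 0) := rfl
        _ = p - c 0 := by rw [inv_mul_cancel]; rfl
    rwa [this] at h2

end Pool.Agent.Helper23.Del
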